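import Pool.Agent.LibLS35.Final2

/-! Line-stabbing exponent of marked planar triangulations (MP_0fb298_co): the infimum of the exponents `log_b c` is not attained, and
it is at most `log_(b-1) (c-1)` for every `(a,b,c)`-triangulation. -/

namespace Pool.Agent.Results.MP_0fb298_co.NotAttained

open LS35

/-- The infimum `λ*` of the exponents `log_b c` of `(a,b,c)`-triangulations is not attained: every exponent is larger than
some other exponent, so larger than the infimum; moreover `λ* ≤ log_(b-1) (c-1)` for every `(a,b,c)`-triangulation. -/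
theorem result : (∀ r ∈ ExpSet, (∃ r' ∈ ExpSet, r' < r) ∧ sInf ExpSet < r) ∧
    ∀ (V F : Type) (_ : Fintype V) (_ : Fintype F) (T : Tri V F) (M : Finset F) (a b c : ℕ), IsABC T M a b c →
      sInf ExpSet ≤ Real.logb ((b - 1 : ℕ) : ℝ) ((c - 1 : ℕ) : ℝ) := by
  have hbdd : BddBelow ExpSet := by
    refine ⟨0, ?_⟩
    rintro r ⟨V, F, iV, iF, T, M, a, b, c, h, rfl⟩
    have h1 := h.cpos
    have h2 := h.clt
    exact Real.logb_nonneg (by exact_mod_cast (by omega : 1 < b)) (by exact_mod_cast (by omega : 1 ≤ c))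
  have hlt : ∀ r ∈ ExpSet, ∃ r' ∈ ExpSet, r' < r := by
    rintro r ⟨V, F, iV, iF, T, M, a, b, c, h, rfl⟩
    have hh : Has b c := ⟨V, F, iV, iF, T, M, a, h⟩
    obtain ⟨h3, h4⟩ := has_bounds hh
    exact ⟨_, has_exp (has_mul hh hh), log_step b c h3 h4⟩
  refine ⟨fun r hr => ⟨hlt r hr, ?_⟩, ?_⟩
  · obtain ⟨r', h1, h2⟩ := hlt r hr
    exact (csInf_le hbdd h1).trans_lt h2
  · intro V F iV iF T M a b c h
    have hh : Has b c := ⟨V, F, iV, iF, T, M, a, h⟩
    obtain ⟨h3, h4⟩ := has_bounds hh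
    exact ge_of_tendsto' (log_limit b c h3 h4) fun n => csInf_le hbdd (has_exp (has_pow hh n))

end Pool.Agent.Results.MP_0fb298_co.NotAttained
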