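import Pool.Agent.LibLS35.Exp
import Pool.Agent.LibLH35.Fin

/-! Line-stabbing exponent of marked planar triangulations (MP_0fb298_co): every `(a,b,c)`-triangulation has `b ≤ (c-1)^2 + 1`,
so all exponents `log_b c` are larger than `1/2` and their infimum is at least `1/2`. -/

namespace Pool.Agent.Results.MP_0fb298_co.SquareRoot

open LS35

/-- `(a,b,c)`-triangulations satisfy `b ≤ (c-1)^2 + 1`; hence every exponent `log_b c` is larger than `1/2`, and the infimum
`λ*` of the set of exponents is at least `1/2`. -/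
theorem result : (∀ (V F : Type) (_ : Fintype V) (_ : Fintype F) (T : Tri V F) (M : Finset F) (a b c : ℕ),
      IsABC T M a b c → b ≤ (c - 1) ^ 2 + 1) ∧
    (∀ r ∈ ExpSet, 1 / 2 < r) ∧ (ExpSet.Nonempty → 1 / 2 ≤ sInf ExpSet) := by
  have h1 : ∀ (V F : Type) (_ : Fintype V) (_ : Fintype F) (T : Tri V F) (M : Finset F) (a b c : ℕ),
      IsABC T M a b c → b ≤ (c - 1) ^ 2 + 1 := fun V F _ _ T M a b c h => lower_bound2 T M a b c h
  have h2 : ∀ r ∈ ExpSet, 1 / 2 < r := by
    rintro r ⟨V, F, iV, iF, T, M, a, b, c, h, rfl⟩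
    have hb := h1 V F iV iF T M a b c h
    have hlt := h.clt
    have hc := h.cpos
    have hc2 : 2 ≤ c := by
      by_contra hcon
      have : c = 1 := by omega
      subst this
      simp at hb
      omega
    have hlt3 : b < c ^ 2 := by
      obtain ⟨k, rfl⟩ : ∃ k, c = k + 2 := ⟨c - 2, by omega⟩
      have e : k + 2 - 1 = k + 1 := by omega
      rw [e] at hb
      nlinarith
    have hb1 : (1 : ℝ) < b := by exact_mod_cast (by omega : 1 < b)
    rw [Real.lt_logb_iff_rpow_lt hb1 (by exact_mod_cast hc)]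
    have hbc : (b : ℝ) < (c : ℝ) ^ 2 := by exact_mod_cast hlt3
    have hb0 : (0 : ℝ) ≤ b := by positivity
    calc (b : ℝ) ^ ((1 : ℝ) / 2) < ((c : ℝ) ^ 2) ^ ((1 : ℝ) / 2) :=
          Real.rpow_lt_rpow hb0 hbc (by norm_num)
      _ = c := by
          rw [← Real.rpow_natCast, ← Real.rpow_mul (by positivity)]
          norm_num
  exact ⟨h1, h2, fun hne => le_csInf hne fun r hr => (h2 r hr).le⟩

end Pool.Agent.Results.MP_0fb298_co.SquareRoot
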