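import Pool.Agent.LibLS35.Exp
import Pool.Agent.LibLU56.Final

/-! Line-stabbing exponent of marked planar triangulations (MP_0fb298_co): there is an `(a,b,c)`-triangulation with
`log_b c < 103/105`, so `λ* < 103/105 = 0.98095...`. -/

namespace Pool.Agent.Results.MP_0fb298_co.UpperBound

open LS35

/-- There is an `(a,b,c)`-triangulation with `log_b c < 103/105`, and the infimum `λ*` of the set of all exponents `log_b c`
is smaller than `103/105`. -/
theorem result : (∃ (V F : Type) (_ : Fintype V) (_ : Fintype F) (T : Tri V F) (M : Finset F) (a b c : ℕ),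
      IsABC T M a b c ∧ Real.logb b c < 103 / 105) ∧
    ExpSet.Nonempty ∧ BddBelow ExpSet ∧ sInf ExpSet < 103 / 105 := by
  obtain ⟨V, F, iV, iF, T, M, a, b, c, h, hlt⟩ := LU56.upper_bound
  have hmem : Real.logb b c ∈ ExpSet := ⟨V, F, iV, iF, T, M, a, b, c, h, rfl⟩
  have hb : BddBelow ExpSet := by
    refine ⟨0, ?_⟩
    rintro r ⟨V, F, iV, iF, T, M, a, b, c, h, rfl⟩
    have hc := h.cpos
    have hlt := h.clt
    refine Real.logb_nonneg ?_ ?_
    · exact_mod_cast (by omega : 1 < b)
    · exact_mod_cast hc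
  exact ⟨⟨V, F, iV, iF, T, M, a, b, c, h, hlt⟩, ⟨_, hmem⟩, hb, (csInf_le hb hmem).trans_lt hlt⟩

end Pool.Agent.Results.MP_0fb298_co.UpperBound
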